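import Pool.Agent.Helper60.QL.Defs
import Pool.Agent.Helper75.TW.A3

/-!
# QL-R4 (helper74): multipliers `exp (u χ(τ))`, continuity, measurability, trivial bounds, arcs of arcs
-/

open MeasureTheory Real Set Filter Topology

set_option autoImplicit false

namespace Pool.Agent.Helper60.QL

open Pool.Agent.Helper22.AE
open Pool.Agent.Helper92.GC (dt tp Tq uu tt arc dd)
open Pool.Agent.Helper75.TW (m20 IsMul20 SP cf m20_eq m20_nonneg m20_congr m20_filter m20_cont_coef mul20_const mul20_comp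
  mul20_add mul20_weaken mul20_mono mul20_congr mul20_half mul20_half_lt cut20_u cut20_t mul20_lim mul20_lip)
open Pool.Agent.Helper60.LT (Fr Tf xf yf df vf fr)

/-! ### Multipliers -/

private lemma mul_pow74 {S : Finset (ℤ × ℤ)} {w : ℤ × ℤ → ℂ} {C : ℝ} (h : IsMul20 S w C) (j : ℕ) :
    IsMul20 S (fun k => w k ^ j) (C ^ j) := by
  induction j with
  | zero =>
    have h1 := mul20_const S 1
    rw [norm_one] at h1
    simpa using h1
  | succ j ih =>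
    have h1 := mul20_comp ih h
    simpa only [pow_succ] using h1

private lemma mul_psum74 {S : Finset (ℤ × ℤ)} {w : ℤ × ℤ → ℂ} {C : ℝ} (h : IsMul20 S w C) (n : ℕ) :
    IsMul20 S (fun k => ∑ j ∈ Finset.range n, w k ^ j / (j.factorial : ℂ))
      (∑ j ∈ Finset.range n, C ^ j / (j.factorial : ℝ)) := by
  induction n with
  | zero =>
    have h1 := mul20_const S 0
    rw [norm_zero] at h1
    simpa using h1
  | succ n ih =>
    have h1 := mul20_comp (mul_pow74 h n) (mul20_const S (1 / (n.factorial : ℂ)))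
    have h2 : ‖(1 / (n.factorial : ℂ))‖ = 1 / (n.factorial : ℝ) := by
      rw [norm_div, norm_one, Complex.norm_natCast]
    rw [h2] at h1
    have h3 := mul20_add ih h1
    simp only [Finset.sum_range_succ]
    simp only [mul_one_div] at h3
    exact h3

theorem mul20_exp {S : Finset (ℤ × ℤ)} {β U : ℝ} (hU : 0 < U) {t₁ t₂ B : ℝ} (h12 : t₁ ≤ t₂)
    (hS : ∀ k ∈ S, 0 < uu β k ∧ uu β k ≤ U ∧ t₁ ≤ tt β k ∧ tt β k ≤ t₂) {χ : ℝ → ℝ}
    (hχ : ∀ t ∈ Icc t₁ t₂, |χ t| ≤ B / U)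
    (hL : ∀ x ∈ Icc t₁ t₂, ∀ y ∈ Icc t₁ t₂, |χ x - χ y| * (t₂ - t₁) ≤ B / U * |x - y|) :
    IsMul20 S (fun k => ee (uu β k * χ (tt β k))) (exp (16100 * B)) := by
  have hB : 0 ≤ B := by
    have h1 := (abs_nonneg _).trans (hχ t₁ ⟨le_rfl, h12⟩)
    have h2 := mul_nonneg h1 hU.le
    rwa [div_mul_cancel₀ _ hU.ne'] at h2
  -- the first factor
  have hb1 : IsMul20 S (fun k => ((uu β k / U : ℝ) : ℂ)) 50 := by
    have h1 := mul20_lip (S := S) (φ := uu β) (A := 50) (fun z => cut20_u S β z) (m := fun x => ((x / U : ℝ) : ℂ)) (x₁ := 0) (x₂ := U)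
      (L := 1 / U) (B := 0) hU.le (fun k hk => ⟨(hS k hk).1.le, (hS k hk).2.1⟩) (by simp) (by
        intro x _ y _
        rw [← Complex.ofReal_sub, Complex.norm_real, norm_eq_abs, ← sub_div, abs_div, abs_of_pos hU]
        apply le_of_eq
        ring)
    refine mul20_weaken h1 ?_
    rw [sub_zero, one_div, inv_mul_cancel₀ hU.ne']
    norm_num
  -- the second factor
  have hb2 : IsMul20 S (fun k => ((U * χ (tt β k) : ℝ) : ℂ)) (51 * B) := by
    have h1 := mul20_lip (S := S) (φ := tt β) (A := 50) (fun z => cut20_t (fun k hk => (hS k hk).1) z) (m := fun x => ((U * χ x : ℝ) : ℂ))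
      (x₁ := t₁) (x₂ := t₂) (L := B / (t₂ - t₁)) (B := B) h12 (fun k hk => ⟨(hS k hk).2.2.1, (hS k hk).2.2.2⟩) (by
        rw [Complex.norm_real, norm_eq_abs, abs_mul, abs_of_pos hU]
        have h2 := mul_le_mul_of_nonneg_left (hχ t₁ ⟨le_rfl, h12⟩) hU.le
        rwa [mul_div_cancel₀ _ hU.ne'] at h2) (by
        intro x hx y hy
        rw [← Complex.ofReal_sub, Complex.norm_real, norm_eq_abs, ← mul_sub, abs_mul, abs_of_pos hU]
        rcases h12.eq_or_lt with h3 | h3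
        · have h4 : x = y := by
            have := hx.1; have := hx.2; have := hy.1; have := hy.2
            linarith
          rw [h4]
          simp
        · have h4 : 0 < t₂ - t₁ := by linarith
          rw [div_mul_eq_mul_div, le_div_iff₀ h4, mul_assoc]
          have h5 := mul_le_mul_of_nonneg_left (hL x hx y hy) hU.le
          have h6 : U * (B / U * |x - y|) = B * |x - y| := by field_simp
          linarith)
    refine mul20_weaken h1 ?_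
    have h2 : B / (t₂ - t₁) * (t₂ - t₁) ≤ B := by
      rcases h12.eq_or_lt with h3 | h3
      · rw [h3]
        simpa using hB
      · rw [div_mul_cancel₀ _ (by linarith)]
    linarith
  -- the exponent
  have hw : IsMul20 S (fun k => (2 * π * Complex.I) * ((uu β k / U : ℝ) * (U * χ (tt β k) : ℝ))) (16100 * B) := by
    have h1 := mul20_comp (mul20_const S (2 * π * Complex.I)) (mul20_comp hb1 hb2)
    refine mul20_weaken h1 ?_
    have h2 : ‖(2 * π * Complex.I : ℂ)‖ = 2 * π := by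
      rw [norm_mul, norm_mul, Complex.norm_I, Complex.norm_real, norm_eq_abs, abs_of_pos pi_pos]
      norm_num
    rw [h2]
    have h3 := pi_lt_d4
    nlinarith
  refine mul20_lim (fun n => mul20_weaken (mul_psum74 hw n) (Real.sum_le_exp_of_nonneg (by positivity) n)) ?_
  intro k hk
  have h1 := (NormedSpace.expSeries_div_hasSum_exp ((2 * π * Complex.I) * (((uu β k / U : ℝ) : ℂ) * ((U * χ (tt β k) : ℝ) : ℂ)))).tendsto_sum_nat
  rw [← Complex.exp_eq_exp_ℂ] at h1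
  have h2 : ee (uu β k * χ (tt β k)) = Complex.exp ((2 * π * Complex.I) * (((uu β k / U : ℝ) : ℂ) * ((U * χ (tt β k) : ℝ) : ℂ))) := by
    unfold ee
    congr 1
    have h3 : ((U : ℝ) : ℂ) ≠ 0 := by exact_mod_cast hU.ne'
    push_cast
    field_simp
  rw [h2]
  exact h1

/-- the multiplier in a sector `|τ| ≤ w`, `τ = tt 0 k - t₀` -/
theorem mul20_exp_c {S : Finset (ℤ × ℤ)} {U w t₀ B : ℝ} (hU : 0 < U) (hw : 0 ≤ w)
    (hS : ∀ k ∈ S, 0 < uu 0 k ∧ uu 0 k ≤ U ∧ |tt 0 k - t₀| ≤ w) {χ : ℝ → ℝ}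
    (hχ : ∀ τ : ℝ, |τ| ≤ w → |χ τ| ≤ B / U)
    (hL : ∀ τ τ' : ℝ, |τ| ≤ w → |τ'| ≤ w → |χ τ - χ τ'| * (2 * w) ≤ B / U * |τ - τ'|) :
    IsMul20 S (fun k => ee (uu 0 k * χ (tt 0 k - t₀))) (exp (16100 * B)) := by
  refine mul20_exp (χ := fun t => χ (t - t₀)) hU (t₁ := t₀ - w) (t₂ := t₀ + w) (by linarith) ?_ ?_ ?_
  · intro k hk
    obtain ⟨h1, h2, h3⟩ := hS k hk
    have h4 := abs_le.1 h3
    exact ⟨h1, h2, by linarith, by linarith⟩
  · intro t ht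
    exact hχ _ (abs_le.2 ⟨by linarith [ht.1], by linarith [ht.2]⟩)
  · intro x hx y hy
    have h := hL (x - t₀) (y - t₀) (abs_le.2 ⟨by linarith [hx.1], by linarith [hx.2]⟩)
      (abs_le.2 ⟨by linarith [hy.1], by linarith [hy.2]⟩)
    have e1 : t₀ + w - (t₀ - w) = 2 * w := by ring
    have e2 : x - t₀ - (y - t₀) = x - y := by ring
    rw [e1]
    rwa [e2] at h

/-- comparison of two families whose phases differ by `u χ(τ)` -/
theorem m20_exp_le {S : Finset (ℤ × ℤ)} {U w t₀ B : ℝ} (hU : 0 < U) (hw : 0 ≤ w)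
    (hS : ∀ k ∈ S, 0 < uu 0 k ∧ uu 0 k ≤ U ∧ |tt 0 k - t₀| ≤ w) {χ : ℝ → ℝ}
    (hχ : ∀ τ : ℝ, |τ| ≤ w → |χ τ| ≤ B / U)
    (hL : ∀ τ τ' : ℝ, |τ| ≤ w → |τ'| ≤ w → |χ τ - χ τ'| * (2 * w) ≤ B / U * |τ - τ'|) (a : ℤ × ℤ → ℂ) :
    m20 S (fun k => ee (uu 0 k * χ (tt 0 k - t₀)) * a k) ≤ exp (322000 * B) * m20 S a := by
  have h := (mul20_exp_c hU hw hS hχ hL).2 a
  have e : exp (16100 * B) ^ 20 = exp (322000 * B) := by
    rw [← exp_nat_mul]
    congr 1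
    push_cast
    ring
  rwa [e] at h

private theorem ee_add74 (x y : ℝ) : ee x * ee y = ee (x + y) := by
  unfold ee
  rw [← Complex.exp_add]
  congr 1
  push_cast
  ring

private theorem ee_zero74 : ee 0 = 1 := by
  unfold ee
  simp

/-- the reverse inequality of `m20_exp_le` -/
theorem m20_le_exp {S : Finset (ℤ × ℤ)} {U w t₀ B : ℝ} (hU : 0 < U) (hw : 0 ≤ w)
    (hS : ∀ k ∈ S, 0 < uu 0 k ∧ uu 0 k ≤ U ∧ |tt 0 k - t₀| ≤ w) {χ : ℝ → ℝ}
    (hχ : ∀ τ : ℝ, |τ| ≤ w → |χ τ| ≤ B / U)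
    (hL : ∀ τ τ' : ℝ, |τ| ≤ w → |τ'| ≤ w → |χ τ - χ τ'| * (2 * w) ≤ B / U * |τ - τ'|) (a : ℤ × ℤ → ℂ) :
    m20 S a ≤ exp (322000 * B) * m20 S (fun k => ee (uu 0 k * χ (tt 0 k - t₀)) * a k) := by
  have h := m20_exp_le (χ := fun τ => -χ τ) hU hw hS (fun τ hτ => by rw [abs_neg]; exact hχ τ hτ)
    (fun τ τ' h1 h2 => by
      have e : -χ τ - -χ τ' = -(χ τ - χ τ') := by ring
      rw [e, abs_neg]
      exact hL τ τ' h1 h2) (fun k => ee (uu 0 k * χ (tt 0 k - t₀)) * a k)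
  refine le_trans (le_of_eq ?_) h
  refine m20_congr fun k _ => ?_
  rw [← mul_assoc, ee_add74, mul_neg, neg_add_cancel, ee_zero74, one_mul]

/-! ### Trivial bounds -/

theorem norm_ee (x : ℝ) : ‖ee x‖ = 1 := by
  unfold ee
  exact Complex.norm_exp_ofReal_mul_I _

private theorem tp_le74 (S : Finset (ℤ × ℤ)) (a : ℤ × ℤ → ℂ) (ha : ∀ k ∈ S, ‖a k‖ ≤ 1) (c : ℝ × ℝ) :
    ‖tp S a c‖ ≤ (S.card : ℝ) := by
  unfold tp
  calc ‖∑ k ∈ S, a k * ee (dt k c)‖ ≤ ∑ k ∈ S, ‖a k * ee (dt k c)‖ := norm_sum_le _ _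
    _ ≤ ∑ k ∈ S, (1 : ℝ) := Finset.sum_le_sum fun k hk => by
        rw [norm_mul, norm_ee, mul_one]
        exact ha k hk
    _ = (S.card : ℝ) := by simp

theorem m20_le_card {S : Finset (ℤ × ℤ)} {a : ℤ × ℤ → ℂ} (ha : ∀ k ∈ S, ‖a k‖ ≤ 1) :
    m20 S a ≤ (S.card : ℝ) ^ 20 := by
  unfold m20
  have hv : (volume Tq).toReal = 1 := by
    have e : Tq = Icc ((0 : ℝ), (0 : ℝ)) (1, 1) := by
      unfold Tq
      rw [Icc_prod_Icc]
    rw [Tq, Measure.volume_eq_prod, Measure.prod_prod]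
    simp
  have h1 : ‖∫ c in Tq, ‖tp S a c‖ ^ 20‖ ≤ (S.card : ℝ) ^ 20 * (volume Tq).toReal := by
    refine norm_setIntegral_le_of_norm_le_const ?_ fun c _ => ?_
    · have h3 : (volume Tq).toReal ≠ 0 := by rw [hv]; exact one_ne_zero
      exact lt_top_iff_ne_top.2 fun h => h3 (by rw [h]; rfl)
    · rw [norm_pow, norm_norm]
      exact pow_le_pow_left₀ (norm_nonneg _) (tp_le74 S a ha c) 20
  rw [hv, mul_one] at h1
  exact (le_abs_self _).trans (by rwa [norm_eq_abs] at h1)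

theorem m20_empty (a : ℤ × ℤ → ℂ) : m20 ∅ a = 0 := by
  have h := m20_le_card (S := ∅) (a := a) (by simp)
  have h2 := m20_nonneg ∅ a
  simp only [Finset.card_empty, Nat.cast_zero, ne_eq, OfNat.ofNat_ne_zero, not_false_eq_true, zero_pow] at h
  linarith

theorem lf_nonneg (t₀ : ℝ) (S : Finset (ℤ × ℤ)) (a : ℤ × ℤ → ℂ) (R : R3) : 0 ≤ lf t₀ S a R := m20_nonneg _ _

theorem qf_nonneg (t₀ : ℝ) (S : Finset (ℤ × ℤ)) (A : R3) : 0 ≤ qf t₀ S A := m20_nonneg _ _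

theorem lf_le {S : Finset (ℤ × ℤ)} {a : ℤ × ℤ → ℂ} (ha : ∀ k, ‖a k‖ ≤ 1) (t₀ : ℝ) (R : R3) :
    lf t₀ S a R ≤ (S.card : ℝ) ^ 20 :=
  m20_le_card fun k _ => by rw [norm_mul, norm_ee, mul_one]; exact ha k

theorem qf_le (t₀ : ℝ) (S : Finset (ℤ × ℤ)) (A : R3) : qf t₀ S A ≤ (S.card : ℝ) ^ 20 :=
  m20_le_card fun _ _ => (norm_ee _).le

theorem ff_le (S : Finset (ℤ × ℤ)) (f : Fr) : ff S f ≤ ENNReal.ofReal ((S.card : ℝ) ^ 20) :=
  ENNReal.ofReal_le_ofReal (m20_le_card fun k _ => (norm_ee _).le)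

theorem lf_empty (t₀ : ℝ) (a : ℤ × ℤ → ℂ) (R : R3) : lf t₀ ∅ a R = 0 := m20_empty _

theorem qf_empty (t₀ : ℝ) (A : R3) : qf t₀ ∅ A = 0 := m20_empty _

theorem ff_empty (f : Fr) : ff ∅ f = 0 := by
  unfold ff
  rw [m20_empty, ENNReal.ofReal_zero]

theorem II_empty (B X : ℝ) : II B X ∅ = 0 := by
  unfold II
  simp only [ff_empty, lintegral_zero]

/-! ### Continuity and measurability -/

theorem cf_meas {X : Type} [MeasurableSpace X] (S : Finset (ℤ × ℤ)) (a : X → ℤ × ℤ → ℂ)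
    (h : ∀ k ∈ S, Measurable (fun x => a x k)) (n : ℕ) : ∀ l, Measurable (fun x => cf S (a x) n l) := by
  induction n with
  | zero => exact fun l => measurable_const
  | succ n ih =>
    intro l
    show Measurable (fun x => ∑ k ∈ _, _)
    refine Finset.measurable_fun_sum _ fun k hk => ?_
    have hk' := (Finset.mem_product.1 (Finset.mem_filter.1 hk).1).2
    exact (ih k.1).mul (h _ hk')

theorem m20_meas_coef {X : Type} [MeasurableSpace X] (S : Finset (ℤ × ℤ)) (a : X → ℤ × ℤ → ℂ)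
    (h : ∀ k ∈ S, Measurable (fun x => a x k)) : Measurable (fun x => m20 S (a x)) := by
  simp only [m20_eq]
  refine Finset.measurable_fun_sum _ fun l _ => ?_
  exact ((cf_meas S a h 10 l).norm).pow_const 2

theorem ee_cont : Continuous ee := by
  unfold ee
  fun_prop

theorem ln_cont (t₀ : ℝ) (k : ℤ × ℤ) : Continuous (fun R : R3 => ln t₀ R k) := by
  unfold ln
  fun_prop

theorem lf_cont (t₀ : ℝ) (S : Finset (ℤ × ℤ)) (a : ℤ × ℤ → ℂ) : Continuous (lf t₀ S a) :=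
  m20_cont_coef S (fun (R : R3) k => a k * ee (ln t₀ R k)) fun k _ =>
    continuous_const.mul (ee_cont.comp (ln_cont t₀ k))

theorem pA_meas (τ : ℝ) : Measurable (fun A : R3 => pA A τ) := by
  unfold pA TA sA xA
  fun_prop

theorem qf_meas (t₀ : ℝ) (S : Finset (ℤ × ℤ)) : Measurable (qf t₀ S) :=
  m20_meas_coef S (fun (A : R3) k => ee (uu 0 k * pA A (tt 0 k - t₀))) fun k _ =>
    ee_cont.measurable.comp ((pA_meas _).const_mul _)

theorem nm_cont : Continuous nm := by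
  unfold nm
  fun_prop

theorem nm_vf_cont (k : ℤ × ℤ) : Continuous (fun f : Fr => nm (vf f k)) := by
  unfold nm vf
  fun_prop

theorem ff_meas (S : Finset (ℤ × ℤ)) : Measurable (ff S) := by
  unfold ff
  exact ENNReal.measurable_ofReal.comp (m20_meas_coef S (fun (f : Fr) k => ee (nm (vf f k)))
    fun k _ => (ee_cont.comp (nm_vf_cont k)).measurable)

theorem m20_ff_cont (S : Finset (ℤ × ℤ)) : Continuous (fun f : Fr => m20 S (fun k => ee (nm (vf f k)))) :=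
  m20_cont_coef S (fun (f : Fr) k => ee (nm (vf f k))) fun k _ => ee_cont.comp (nm_vf_cont k)

/-! ### The regions grow -/

theorem UB_mono {B B' X : ℝ} (h : B ≤ B') (hX : 0 ≤ X) : UB B X ⊆ UB B' X := by
  rintro f ⟨h1, h2, h3, h4, h5⟩
  have e := mul_le_mul_of_nonneg_right h hX
  have e2 := mul_le_mul_of_nonneg_right h (abs_nonneg (df f))
  exact ⟨h1.trans e, h2.trans e, h3.trans e, h4.trans e, h5.trans e2⟩

theorem OM_mono {B B' X : ℝ} (h0 : 0 < B) (h : B ≤ B') (hX : 0 ≤ X) : OM B X ⊆ OM B' X := by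
  rintro A ⟨h1, h2, h3, h4, h5⟩
  have e := mul_le_mul_of_nonneg_right h hX
  have hA : 0 ≤ A.1 := by
    by_contra hc
    have := mul_neg_of_pos_of_neg h0 (not_le.1 hc)
    linarith
  have hD : 0 ≤ A.2.1 ^ 2 - A.2.2 * A.1 := by
    by_contra hc
    have := mul_neg_of_pos_of_neg h0 (not_le.1 hc)
    nlinarith [sq_nonneg X]
  exact ⟨h1.trans (mul_le_mul_of_nonneg_right h hA), h2.trans e, h3.trans e, h4.trans e,
    h5.trans (mul_le_mul_of_nonneg_right h hD)⟩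

theorem II_mono {B B' X : ℝ} (h : B ≤ B') (hX : 0 ≤ X) (S : Finset (ℤ × ℤ)) :
    II B X S ≤ II B' X S :=
  lintegral_mono_set (UB_mono h hX)

/-! ### Arcs -/

theorem mem_arc {β : ℝ} {S : Finset (ℤ × ℤ)} {N j : ℕ} {k : ℤ × ℤ} :
    k ∈ arc β S N j ↔ k ∈ S ∧ ⌊(N : ℝ) * ((tt β k + 6) / 12)⌋₊ = j := by
  classical
  unfold arc
  rw [Finset.mem_filter]

theorem arc_sub (β : ℝ) (S : Finset (ℤ × ℤ)) (N j : ℕ) : arc β S N j ⊆ S := fun _ hk => (mem_arc.1 hk).1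

theorem arc_card_le (β : ℝ) (S : Finset (ℤ × ℤ)) (N j : ℕ) : (arc β S N j).card ≤ S.card :=
  Finset.card_le_card (arc_sub β S N j)

/-- the slopes of an arc -/
theorem arc_slope {β : ℝ} {S : Finset (ℤ × ℤ)} {N j : ℕ} (hN : 0 < N) {k : ℤ × ℤ} (h6 : -6 ≤ tt β k)
    (hk : k ∈ arc β S N j) : |tt β k - (12 * ((j : ℝ) + 1 / 2) / N - 6)| ≤ 6 / N := by
  have h := (mem_arc.1 hk).2
  have hN' : (0 : ℝ) < N := by exact_mod_cast hN
  have h0 : 0 ≤ (N : ℝ) * ((tt β k + 6) / 12) := mul_nonneg hN'.le (by linarith)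
  obtain ⟨h1, h2⟩ := (Nat.floor_eq_iff h0).1 h
  have e1 : tt β k - (12 * ((j : ℝ) + 1 / 2) / N - 6) = ((N : ℝ) * ((tt β k + 6) / 12) - ((j : ℝ) + 1 / 2)) * 12 / N := by
    field_simp
    ring
  rw [e1, abs_div, abs_of_pos hN', abs_mul, abs_of_pos (by norm_num : (0 : ℝ) < 12)]
  refine div_le_div_of_nonneg_right ?_ hN'.le
  have h3 : |(N : ℝ) * ((tt β k + 6) / 12) - ((j : ℝ) + 1 / 2)| ≤ 1 / 2 := abs_le.2 ⟨by linarith, by linarith⟩
  linarith

/-- an arc which meets slopes `|t| ≤ 2` has its centre in `[-3, 3]` -/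
theorem arc_centre {β : ℝ} {S : Finset (ℤ × ℤ)} {N j : ℕ} (hN : 6 ≤ N) {k : ℤ × ℤ} (h2 : |tt β k| ≤ 2)
    (hk : k ∈ arc β S N j) : |12 * ((j : ℝ) + 1 / 2) / N - 6| ≤ 3 := by
  have h0 := abs_le.1 h2
  have h := arc_slope (by omega) (by linarith) hk
  have hN' : (6 : ℝ) ≤ N := by exact_mod_cast hN
  have h1 : 6 / (N : ℝ) ≤ 1 := by rw [div_le_one (by linarith)]; exact hN'
  have h3 := abs_le.1 h
  exact abs_le.2 ⟨by linarith, by linarith⟩

/-- slopes of the frequencies of a cone -/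
theorem cone_slope {H lam : ℝ} (hH : 0 < H) (hl : 0 < lam) {S : Finset (ℤ × ℤ)} (h : Cone H lam S) {k : ℤ × ℤ} (hk : k ∈ S) :
    0 < uu 0 k ∧ H / lam ≤ uu 0 k ∧ uu 0 k ≤ lam * H ∧ |tt 0 k| ≤ 2 := by
  obtain ⟨h1, h2, h3⟩ := h k hk
  have e : uu 0 k = (k.1 : ℝ) := by unfold uu; ring
  have h0 : (0 : ℝ) < k.1 := lt_of_lt_of_le (by positivity) h1
  rw [e]
  refine ⟨h0, h1, h2, ?_⟩
  unfold tt
  rw [e, abs_div, abs_of_pos h0, div_le_iff₀ h0]
  exact h3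

theorem Cone.mono {H lam : ℝ} {S T : Finset (ℤ × ℤ)} (h : Cone H lam S) (hT : T ⊆ S) : Cone H lam T :=
  fun k hk => h k (hT hk)

private theorem floor_arc {M m m' : ℕ} (hM : 0 < M) (hm : m ≤ m') (x : ℝ) :
    ⌊((M ^ m : ℕ) : ℝ) * x⌋₊ = ⌊((M ^ m' : ℕ) : ℝ) * x⌋₊ / M ^ (m' - m) := by
  rw [← Nat.floor_div_natCast]
  congr 1
  have hM' : (0 : ℝ) < M := by exact_mod_cast hM
  have e : (M : ℝ) ^ m' = (M : ℝ) ^ m * (M : ℝ) ^ (m' - m) := by rw [← pow_add, Nat.add_sub_cancel' hm]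
  push_cast
  rw [e]
  have : (M : ℝ) ^ (m' - m) ≠ 0 := by positivity
  field_simp

/-- arcs of arcs -/
theorem arc_arc_eq {β : ℝ} {S : Finset (ℤ × ℤ)} {M m m' r r' : ℕ} (hM : 0 < M) (hm : m ≤ m') (hr : r' / M ^ (m' - m) = r) :
    arc β (arc β S (M ^ m) r) (M ^ m') r' = arc β S (M ^ m') r' := by
  ext k
  rw [mem_arc, mem_arc, mem_arc]
  constructor
  · rintro ⟨⟨h1, -⟩, h2⟩
    exact ⟨h1, h2⟩
  · rintro ⟨h1, h2⟩
    refine ⟨⟨h1, ?_⟩, h2⟩
    rw [floor_arc hM hm, h2, hr]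

theorem arc_arc_empty {β : ℝ} {S : Finset (ℤ × ℤ)} {M m m' r r' : ℕ} (hM : 0 < M) (hm : m ≤ m') (hr : r' / M ^ (m' - m) ≠ r) :
    arc β (arc β S (M ^ m) r) (M ^ m') r' = ∅ := by
  rw [Finset.eq_empty_iff_forall_notMem]
  intro k hk
  obtain ⟨h1, h2⟩ := mem_arc.1 hk
  have h3 := (mem_arc.1 h1).2
  rw [floor_arc hM hm, h2] at h3
  exact hr h3

/-- a sum over arcs of arcs -/
theorem sum_arc_arc {E : Type} [AddCommMonoid E] {β : ℝ} {S : Finset (ℤ × ℤ)} {M m m' : ℕ} (hM : 0 < M) (hm : m ≤ m')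
    (F : Finset (ℤ × ℤ) → E) (F0 : F ∅ = 0) :
    ∑ r ∈ Finset.range (M ^ m), ∑ r' ∈ Finset.range (M ^ m'), F (arc β (arc β S (M ^ m) r) (M ^ m') r') =
      ∑ r' ∈ Finset.range (M ^ m'), F (arc β S (M ^ m') r') := by
  rw [Finset.sum_comm]
  refine Finset.sum_congr rfl fun r' hr' => ?_
  have hlt : r' / M ^ (m' - m) < M ^ m := by
    rw [Nat.div_lt_iff_lt_mul (Nat.pow_pos hM), ← pow_add, Nat.add_sub_cancel' hm]
    exact Finset.mem_range.1 hr'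
  rw [Finset.sum_eq_single (r' / M ^ (m' - m))]
  · rw [arc_arc_eq hM hm rfl]
  · intro r _ hne
    rw [arc_arc_empty hM hm (Ne.symm hne), F0]
  · intro h
    exact absurd (Finset.mem_range.2 hlt) h

/-- the arcs are a partition of the frequencies with slopes in `[-6, 6)` -/
theorem arc_cover {β : ℝ} {S : Finset (ℤ × ℤ)} {N : ℕ} (hN : 0 < N) {k : ℤ × ℤ} (hk : k ∈ S) (h2 : |tt β k| ≤ 2) :
    ∃ j ∈ Finset.range N, k ∈ arc β S N j := by
  have h0 := abs_le.1 h2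
  have hN' : (0 : ℝ) < N := by exact_mod_cast hN
  refine ⟨⌊(N : ℝ) * ((tt β k + 6) / 12)⌋₊, ?_, mem_arc.2 ⟨hk, rfl⟩⟩
  rw [Finset.mem_range, Nat.floor_lt (mul_nonneg hN'.le (by linarith))]
  nlinarith

/-- an arc is a multiplier -/
theorem m20_arc_le {β : ℝ} {S : Finset (ℤ × ℤ)} {N j : ℕ} (hN : 0 < N) (hS : ∀ k ∈ S, 0 < uu β k ∧ -6 ≤ tt β k) (a : ℤ × ℤ → ℂ) :
    m20 (arc β S N j) a ≤ (2600 : ℝ) ^ 20 * m20 S a := by
  classical
  have hN' : (0 : ℝ) < N := by exact_mod_cast hN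
  have h1 := cut20_t (fun k hk => (hS k hk).1) (12 * (j : ℝ) / N - 6)
  have h2 := cut20_t (fun k hk => (hS k hk).1) (12 * ((j : ℝ) + 1) / N - 6)
  have h3 : IsMul20 S (fun k => 1 + (-1) * (if 12 * ((j : ℝ) + 1) / N - 6 ≤ tt β k then (1 : ℂ) else 0)) (1 + 1 * 50) := by
    have e1 := mul20_const S (1 : ℂ)
    have e2 := mul20_const S (-1 : ℂ)
    rw [norm_one] at e1
    rw [norm_neg, norm_one] at e2
    exact mul20_add e1 (mul20_comp e2 h2)
  have h4 := (mul20_weaken (mul20_comp h1 h3) (by norm_num : (50 : ℝ) * (1 + 1 * 50) ≤ 2600)).2 a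
  refine le_trans (le_of_eq ?_) h4
  have e : m20 (arc β S N j) a =
      m20 S (fun k => (if ⌊(N : ℝ) * ((tt β k + 6) / 12)⌋₊ = j then 1 else 0) * a k) := by
    have h := m20_filter S (fun k => ⌊(N : ℝ) * ((tt β k + 6) / 12)⌋₊ = j) a
    unfold arc
    convert h
  rw [e]
  refine m20_congr fun k hk => ?_
  have h0 : 0 ≤ (N : ℝ) * ((tt β k + 6) / 12) := mul_nonneg hN'.le (by linarith [(hS k hk).2])
  have i1 : (j : ℝ) ≤ (N : ℝ) * ((tt β k + 6) / 12) ↔ 12 * (j : ℝ) / N - 6 ≤ tt β k := by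
    rw [sub_le_iff_le_add, div_le_iff₀ hN']
    constructor <;> intro h <;> linarith
  have i2 : (j : ℝ) + 1 ≤ (N : ℝ) * ((tt β k + 6) / 12) ↔ 12 * ((j : ℝ) + 1) / N - 6 ≤ tt β k := by
    rw [sub_le_iff_le_add, div_le_iff₀ hN']
    constructor <;> intro h <;> linarith
  have i3 : ⌊(N : ℝ) * ((tt β k + 6) / 12)⌋₊ = j ↔
      12 * (j : ℝ) / N - 6 ≤ tt β k ∧ ¬ 12 * ((j : ℝ) + 1) / N - 6 ≤ tt β k := by
    rw [Nat.floor_eq_iff h0, ← i1, ← i2, not_le]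
  by_cases c1 : 12 * (j : ℝ) / N - 6 ≤ tt β k
  · by_cases c2 : 12 * ((j : ℝ) + 1) / N - 6 ≤ tt β k
    · rw [if_neg (fun h => (i3.1 h).2 c2)]
      simp [c1, c2]
    · rw [if_pos (i3.2 ⟨c1, c2⟩)]
      simp [c1, c2]
  · rw [if_neg (fun h => c1 (i3.1 h).1)]
    simp [c1]

end Pool.Agent.Helper60.QL
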